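import Mathlib
import Pool.Agent.R663.FFlip

set_option autoImplicit false

/-!
# Thompson's group `F` is not integrable

`F` acts on the left end of the interval through the character `χ₀` (logarithm of the slope at `0`)
and on the right end through `χ₁`. The kernels of `χ₀` and `χ₁` are the maximal ones among normal
subgroups all of whose finite subsets have a nontrivial centralizer, so every automorphism of `F`
permutes them. A subgroup of `ker χ₀` fixes a neighbourhood of `0` pointwise if and only if it is
centralized by an element outside `ker χ₀`; this gives every automorphism preserving `ker χ₀` a sort
of translation number at `0`, which is invariant under conjugation. Hence an element `c` of `F` for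
which conjugation by `c` is a commutator of two automorphisms of `F` satisfies
`χ₀ c + χ₁ c = 0` (suitably normalized). If `F` were the commutator subgroup of `H`, all commutators
of `H` would lie in the proper subgroup defined by this equation.
-/

namespace Pool.Agent.Results.MP_57deef_al.NotIntegrable

open Pool.Agent.H476R3.ThF

/-- No group has a commutator subgroup isomorphic to Thompson's group `F`. -/
theorem result (H : Type*) [Group H] : ¬ Nonempty (commutator H ≃* ThompsonF) :=
  Pool.Agent.R663.FEnds.not_integral H

end Pool.Agent.Results.MP_57deef_al.NotIntegrable
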